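import Mathlib
import Pool.Agent.Collatz3.GCount

set_option autoImplicit false

/-!
Padded segments of the inverse 3x+1 tree, and the defect of a word.
-/

namespace Pool.Agent.Collatz3.PF

open Real Filter

/-- Products over distinct positive integers. -/
theorem prod_le (s : Finset ℕ) (hs : ∀ x ∈ s, 1 ≤ x) :
    ∏ x ∈ s, (1 + 1 / (x : ℝ)) ≤ (s.card : ℝ) + 1 := by
  obtain ⟨c, hc⟩ : ∃ c, s.card = c := ⟨_, rfl⟩
  induction c generalizing s with
  | zero => rw [Finset.card_eq_zero.1 hc]; simp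
  | succ c ih =>
    have hne : s.Nonempty := by rw [← Finset.card_pos]; omega
    have hM : s.max' hne ∈ s := s.max'_mem hne
    have hc1 : (s.erase (s.max' hne)).card = c := by
      rw [Finset.card_erase_of_mem hM]
      omega
    have h1 := ih (s.erase (s.max' hne)) (fun x hx => hs x (Finset.mem_of_mem_erase hx)) hc1
    have hMc : c + 1 ≤ s.max' hne := by
      have h2 : s ⊆ Finset.Icc 1 (s.max' hne) := fun x hx =>
        Finset.mem_Icc.2 ⟨hs x hx, s.le_max' x hx⟩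
      have h3 := Finset.card_le_card h2
      rw [Nat.card_Icc] at h3
      omega
    rw [← Finset.mul_prod_erase s _ hM]
    have h4 : (1 : ℝ) / ((s.max' hne : ℕ) : ℝ) ≤ 1 / ((c : ℝ) + 1) := by
      apply one_div_le_one_div_of_le (by positivity)
      exact_mod_cast hMc
    have h5 : (0 : ℝ) ≤ ∏ x ∈ s.erase (s.max' hne), (1 + 1 / (x : ℝ)) :=
      Finset.prod_nonneg fun x _ => by positivity
    rw [hc1] at h1
    rw [hc]
    have h6 : (1 + 1 / ((s.max' hne : ℕ) : ℝ)) * ∏ x ∈ s.erase (s.max' hne), (1 + 1 / (x : ℝ)) ≤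
        (1 + 1 / ((c : ℝ) + 1)) * ((c : ℝ) + 1) := by
      apply mul_le_mul (by linarith) h1 h5 (by positivity)
    refine h6.trans (le_of_eq ?_)
    have : (c : ℝ) + 1 ≠ 0 := by positivity
    field_simp
    push_cast
    ring

/-- The odd nodes of a word, as a set of distinct positive integers. -/
theorem exists_nodes (w : List ℕ) : ∀ {A b : ℤ}, Up A w b → 0 < A → (∀ i ∈ w, 1 ≤ i) →
    (∀ i j, i ≤ w.sum → j ≤ w.sum → T3^[i] b.toNat = T3^[j] b.toNat → i = j) →
    ∃ s : Finset ℕ, s.card = w.length ∧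
      (∀ x ∈ s, 1 ≤ x ∧ ∃ t, t < w.sum ∧ T3^[t] b.toNat = x) ∧
      (b : ℝ) * ∏ x ∈ s, (3 * (x : ℝ) + 1) = 2 ^ w.sum * (A : ℝ) * ∏ x ∈ s, (x : ℝ) := by
  induction w with
  | nil =>
    intro A b h hA _ _
    have hab : A = b := h
    refine ⟨∅, by simp, by simp, ?_⟩
    simp [hab]
  | cons i w ih =>
    intro A b h hA hw hinj
    obtain ⟨x, hx, hu⟩ := h
    have hx1 : Up A [i] x := ⟨x, hx, rfl⟩
    have hx0 : 0 < x := hx1.pos hA (by
      intro j hj
      rw [List.mem_singleton] at hj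
      rw [hj]
      exact hw i List.mem_cons_self)
    have hw' : ∀ j ∈ w, 1 ≤ j := fun j hj => hw j (List.mem_cons_of_mem _ hj)
    have hi1 : 1 ≤ i := hw i List.mem_cons_self
    have hsum : (i :: w).sum = i + w.sum := List.sum_cons
    obtain ⟨s, hs1, hs2, hs3⟩ := ih hu hx0 hw' (fun p q hp hq => hinj p q (by omega) (by omega))
    have hit := hu.iter hx0 hw'
    have hnot : x.toNat ∉ s := by
      intro hmem
      obtain ⟨_, t, ht, htx⟩ := hs2 _ hmem
      have := hinj t w.sum (by omega) (by omega) (by rw [htx, hit])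
      omega
    refine ⟨insert x.toNat s, ?_, ?_, ?_⟩
    · rw [Finset.card_insert_of_notMem hnot, hs1, List.length_cons]
    · intro y hy
      rcases Finset.mem_insert.1 hy with rfl | hy
      · refine ⟨by omega, w.sum, by omega, hit⟩
      · obtain ⟨h1, t, ht, h2⟩ := hs2 y hy
        exact ⟨h1, t, by omega, h2⟩
    · rw [Finset.prod_insert hnot, Finset.prod_insert hnot, hsum]
      have e1 : ((x.toNat : ℕ) : ℝ) = (x : ℝ) := by
        have : ((x.toNat : ℕ) : ℤ) = x := Int.toNat_of_nonneg hx0.le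
        exact_mod_cast congrArg (fun z : ℤ => (z : ℝ)) this
      have e2 : (2 : ℝ) ^ i * (A : ℝ) = 3 * (x : ℝ) + 1 := by exact_mod_cast hx
      rw [e1, pow_add]
      calc (b : ℝ) * ((3 * (x : ℝ) + 1) * ∏ y ∈ s, (3 * (y : ℝ) + 1))
          = (3 * (x : ℝ) + 1) * ((b : ℝ) * ∏ y ∈ s, (3 * (y : ℝ) + 1)) := by ring
        _ = (2 ^ i * (A : ℝ)) * (2 ^ w.sum * (x : ℝ) * ∏ y ∈ s, (y : ℝ)) := by rw [hs3, e2]
        _ = 2 ^ i * 2 ^ w.sum * (A : ℝ) * ((x : ℝ) * ∏ y ∈ s, (y : ℝ)) := by ring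

/-- The defect of a word is at most a factor `n + 1` above a base point. -/
theorem defect_mul {a A : ℕ} (hA : Base a A) {w : List ℕ} {b : ℤ} (h : Up (A : ℤ) w b)
    (hw : ∀ i ∈ w, 1 ≤ i) :
    (b : ℝ) * 3 ^ w.length ≤ 2 ^ w.sum * A ∧
      2 ^ w.sum * (A : ℝ) ≤ b * 3 ^ w.length * ((w.length : ℝ) + 1) := by
  have hA0 : (0 : ℤ) < (A : ℤ) := by exact_mod_cast hA.pos
  have hb0 : 0 < b := h.pos hA0 hw
  have hit := h.iter hA0 hw
  rw [Int.toNat_natCast] at hit
  have hinj : ∀ i j, i ≤ w.sum → j ≤ w.sum → T3^[i] b.toNat = T3^[j] b.toNat → i = j := by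
    intro i j hi hj hij
    have h1 : T3^[w.sum - i] (T3^[i] b.toNat) = A := by
      rw [← Function.iterate_add_apply, Nat.sub_add_cancel hi, hit]
    have h2 : T3^[w.sum - j + i] b.toNat = A := by
      rw [Function.iterate_add_apply, hij, ← Function.iterate_add_apply, Nat.sub_add_cancel hj, hit]
    have h3 := hA.time_unique hit h2
    omega
  obtain ⟨s, hs1, hs2, hs3⟩ := exists_nodes w h hA0 hw hinj
  have hpos : ∀ x ∈ s, (0 : ℝ) < x := fun x hx => by exact_mod_cast (hs2 x hx).1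
  have hP : (0 : ℝ) < ∏ x ∈ s, (x : ℝ) := Finset.prod_pos hpos
  have hb : (0 : ℝ) < b := by exact_mod_cast hb0
  have e1 : ∏ x ∈ s, (3 * (x : ℝ) + 1) = 3 ^ w.length * (∏ x ∈ s, (x : ℝ)) *
      ∏ x ∈ s, (1 + 1 / (3 * (x : ℝ))) := by
    rw [← hs1, ← Finset.prod_const, ← Finset.prod_mul_distrib, ← Finset.prod_mul_distrib]
    apply Finset.prod_congr rfl
    intro x hx
    have := (hpos x hx).ne'
    field_simp
  have e2 : (b : ℝ) * 3 ^ w.length * ∏ x ∈ s, (1 + 1 / (3 * (x : ℝ))) = 2 ^ w.sum * A := by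
    rw [e1] at hs3
    have : (∏ x ∈ s, (x : ℝ)) * ((b : ℝ) * 3 ^ w.length * ∏ x ∈ s, (1 + 1 / (3 * (x : ℝ)))) =
        (∏ x ∈ s, (x : ℝ)) * (2 ^ w.sum * A) := by
      push_cast at hs3
      linarith
    exact mul_left_cancel₀ hP.ne' this
  have h1 : (1 : ℝ) ≤ ∏ x ∈ s, (1 + 1 / (3 * (x : ℝ))) := by
    have h0 : ∏ x ∈ s, (fun _ : ℕ => (1 : ℝ)) x ≤ ∏ x ∈ s, (1 + 1 / (3 * (x : ℝ))) := by
      apply Finset.prod_le_prod
      · intro x _
        exact zero_le_one
      · intro x hx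
        have := hpos x hx
        have h5 : (0 : ℝ) ≤ 1 / (3 * (x : ℝ)) := by positivity
        show (1 : ℝ) ≤ _
        linarith
    rwa [Finset.prod_const_one] at h0
  have h2 : ∏ x ∈ s, (1 + 1 / (3 * (x : ℝ))) ≤ (w.length : ℝ) + 1 := by
    rw [← hs1]
    refine le_trans ?_ (prod_le s fun x hx => (hs2 x hx).1)
    apply Finset.prod_le_prod
    · intro x hx
      have := hpos x hx
      positivity
    · intro x hx
      have := hpos x hx
      have h3 : 1 / (3 * (x : ℝ)) ≤ 1 / (x : ℝ) := by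
        apply one_div_le_one_div_of_le this
        linarith
      linarith
  have h3 : (0 : ℝ) < (b : ℝ) * 3 ^ w.length := by positivity
  rw [← e2]
  exact ⟨le_mul_of_one_le_right h3.le h1, mul_le_mul_of_nonneg_left h2 h3.le⟩

/-- The defect of a word is at most `log (n + 1)` above a base point. -/
theorem defect2 {a A : ℕ} (hA : Base a A) {w : List ℕ} {b : ℤ} (h : Up (A : ℤ) w b)
    (hw : ∀ i ∈ w, 1 ≤ i) :
    log A + w.sum * log 2 - w.length * log 3 - log ((w.length : ℝ) + 1) ≤ log (b : ℝ) ∧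
      log (b : ℝ) ≤ log A + w.sum * log 2 - w.length * log 3 := by
  have hA0 : (0 : ℤ) < (A : ℤ) := by exact_mod_cast hA.pos
  have hb0 : 0 < b := h.pos hA0 hw
  have hb : (0 : ℝ) < b := by exact_mod_cast hb0
  have hAr : (0 : ℝ) < A := by exact_mod_cast hA.pos
  obtain ⟨h1, h2⟩ := defect_mul hA h hw
  have h1' := Real.log_le_log (by positivity) h1
  have h2' := Real.log_le_log (by positivity) h2
  rw [Real.log_mul hb.ne' (by positivity), Real.log_mul (by positivity) hAr.ne', Real.log_pow,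
    Real.log_pow] at h1'
  rw [Real.log_mul (by positivity) hAr.ne', Real.log_mul (by positivity) (by positivity),
    Real.log_mul hb.ne' (by positivity), Real.log_pow, Real.log_pow] at h2'
  constructor <;> linarith

/-- The defect of a word, in the form used later. -/
theorem defect {a A : ℕ} (hA : Base a A) {w : List ℕ} (hw : ∀ i ∈ w, 1 ≤ i) {b : ℤ}
    (h : Up (A : ℤ) w b) : 0 < b ∧
    |log (b : ℝ) - (log A + w.sum * log 2 - w.length * log 3)| ≤ log (w.length + 1) + 1 := by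
  have hA0 : (0 : ℤ) < (A : ℤ) := by exact_mod_cast hA.pos
  obtain ⟨h1, h2⟩ := defect2 hA h hw
  have h3 : 0 ≤ log ((w.length : ℝ) + 1) := by
    apply log_nonneg
    have : (0 : ℝ) ≤ (w.length : ℝ) := Nat.cast_nonneg _
    linarith
  refine ⟨h.pos hA0 hw, ?_⟩
  rw [abs_le]
  constructor <;> linarith

/-- Among six consecutive letters one can be read at `b`, with end point prime to 3. -/
theorem exists_letter {b : ℤ} (hb : ¬ (3 : ℤ) ∣ b) (m : ℕ) :
    ∃ i, m + 1 ≤ i ∧ i ≤ m + 6 ∧ ∃ x : ℤ, 2 ^ i * b = 3 * x + 1 ∧ ¬ (3 : ℤ) ∣ x := by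
  have hb' : ¬ (3 : ℤ) ∣ 2 ^ m * b := by
    intro h
    rcases Int.prime_three.dvd_mul.1 h with h1 | h1
    · have := Int.prime_three.dvd_of_dvd_pow h1
      omega
    · exact hb h1
  generalize hc : (2 : ℤ) ^ m * b = c at hb'
  have h9 : c % 9 = 1 ∨ c % 9 = 2 ∨ c % 9 = 4 ∨ c % 9 = 5 ∨ c % 9 = 7 ∨ c % 9 = 8 := by omega
  have key : ∀ j : ℕ, 1 ≤ j → j ≤ 6 → (2 ^ j * c) % 9 = 4 →
      ∃ i, m + 1 ≤ i ∧ i ≤ m + 6 ∧ ∃ x : ℤ, 2 ^ i * b = 3 * x + 1 ∧ ¬ (3 : ℤ) ∣ x := by
    intro j h1 h2 h3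
    refine ⟨m + j, by omega, by omega, (2 ^ j * c - 1) / 3, ?_, ?_⟩
    · have e : (2 : ℤ) ^ (m + j) * b = 2 ^ j * c := by rw [← hc]; ring
      rw [e]
      generalize (2 : ℤ) ^ j * c = y at h3
      omega
    · generalize (2 : ℤ) ^ j * c = y at h3
      omega
  rcases h9 with h | h | h | h | h | h
  · exact key 2 (by norm_num) (by norm_num) (by norm_num; omega)
  · exact key 1 (by norm_num) (by norm_num) (by norm_num; omega)
  · exact key 6 (by norm_num) (by norm_num) (by norm_num; omega)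
  · exact key 3 (by norm_num) (by norm_num) (by norm_num; omega)
  · exact key 4 (by norm_num) (by norm_num) (by norm_num; omega)
  · exact key 5 (by norm_num) (by norm_num) (by norm_num; omega)

/-- Padded segments: the sum of the letters is fixed up to a constant. -/
theorem seg {s g : ℝ} (h : UniformGrowth s g) : ∀ d : ℝ, 0 < d → ∃ N₀ : ℕ, ∀ n : ℕ, N₀ ≤ n →
    ∀ a : ℤ, ¬ (3 : ℤ) ∣ a → ∃ P : Finset (List ℕ), Real.exp ((g - d) * n) ≤ (P.card : ℝ) ∧
      ∀ w ∈ P, w.length = n + 1 ∧ (∀ i ∈ w, 1 ≤ i) ∧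
        |(w.sum : ℝ) * log 2 - (s + d) * n| ≤ 10 ∧ Ok a w := by
  classical
  intro d hd
  obtain ⟨N₀, hN⟩ := h d hd
  refine ⟨N₀, fun n hn a ha => ?_⟩
  have hl2 : 0 < log 2 := log_pos (by norm_num)
  have hl2' : log 2 ≤ 1 := by
    have := Real.log_two_lt_d9
    linarith
  have h1 := hN n hn a ha
  have hfin := paths_finite a n (Real.exp ((s + d) * n))
  have hex : ∀ w ∈ hfin.toFinset, ∃ i : ℕ, 1 ≤ i ∧ Ok a (w ++ [i]) ∧
      |((w ++ [i]).sum : ℝ) * log 2 - (s + d) * n| ≤ 10 := by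
    intro w hw
    rw [Set.Finite.mem_toFinset] at hw
    obtain ⟨w1, w2, w3, b, w4, w5⟩ := hw
    have hsz : (2 : ℝ) ^ w.sum ≤ Real.exp ((s + d) * n) := by
      refine le_trans ?_ w3
      unfold size
      push_cast
      have : (0 : ℝ) ≤ (cw w : ℝ) := Nat.cast_nonneg _
      linarith
    have hS : (w.sum : ℝ) * log 2 ≤ (s + d) * n := by
      have := Real.log_le_log (by positivity) hsz
      rwa [Real.log_pow, Real.log_exp] at this
    have hT0 : (0 : ℝ) ≤ (s + d) * n / log 2 := by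
      apply div_nonneg _ hl2.le
      refine le_trans ?_ hS
      positivity
    have hK : w.sum ≤ ⌊(s + d) * n / log 2⌋₊ := by
      apply Nat.le_floor
      rw [le_div_iff₀ hl2]
      exact hS
    obtain ⟨i, i1, i2, x, i3, i4⟩ := exists_letter w5 (⌊(s + d) * n / log 2⌋₊ - w.sum)
    refine ⟨i, by omega, ⟨x, ?_, i4⟩, ?_⟩
    · rw [Up.append_iff]
      exact ⟨b, w4, x, i3, rfl⟩
    · have e1 : (w ++ [i]).sum = w.sum + i := by simp
      have f1 : (⌊(s + d) * n / log 2⌋₊ : ℝ) ≤ (s + d) * n / log 2 := Nat.floor_le hT0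
      have f2 : (s + d) * n / log 2 < (⌊(s + d) * n / log 2⌋₊ : ℝ) + 1 := Nat.lt_floor_add_one _
      have g1 : ⌊(s + d) * n / log 2⌋₊ + 1 ≤ (w ++ [i]).sum := by omega
      have g2 : (w ++ [i]).sum ≤ ⌊(s + d) * n / log 2⌋₊ + 6 := by omega
      have g1' : (⌊(s + d) * n / log 2⌋₊ : ℝ) + 1 ≤ ((w ++ [i]).sum : ℝ) := by exact_mod_cast g1
      have g2' : ((w ++ [i]).sum : ℝ) ≤ (⌊(s + d) * n / log 2⌋₊ : ℝ) + 6 := by exact_mod_cast g2
      have e2 : (s + d) * n / log 2 * log 2 = (s + d) * n := div_mul_cancel₀ _ hl2.ne'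
      have k1 : ((w ++ [i]).sum : ℝ) * log 2 ≤ ((s + d) * n / log 2 + 6) * log 2 :=
        mul_le_mul_of_nonneg_right (by linarith) hl2.le
      have k2 : (s + d) * n / log 2 * log 2 ≤ ((w ++ [i]).sum : ℝ) * log 2 :=
        mul_le_mul_of_nonneg_right (by linarith) hl2.le
      rw [abs_le]
      constructor <;> nlinarith
  choose! f hf1 hf2 hf3 using hex
  refine ⟨hfin.toFinset.image fun w => w ++ [f w], ?_, ?_⟩
  · have hinj : Set.InjOn (fun w : List ℕ => w ++ [f w]) (hfin.toFinset : Set (List ℕ)) := by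
      intro w hw w' hw' hww
      rw [Set.Finite.coe_toFinset] at hw hw'
      have e1 : w.length = w'.length := by rw [hw.1, hw'.1]
      exact (List.append_inj hww e1).1
    rw [Finset.card_image_of_injOn hinj]
    have e2 : hfin.toFinset.card = cnt a n (Real.exp ((s + d) * n)) := by
      unfold cnt
      rw [Set.ncard_eq_toFinset_card _ hfin]
    rw [e2]
    exact h1
  · intro v hv
    rw [Finset.mem_image] at hv
    obtain ⟨w, hw, rfl⟩ := hv
    have hw' := (Set.Finite.mem_toFinset hfin).1 hw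
    refine ⟨?_, ?_, hf3 w hw, hf2 w hw⟩
    · rw [List.length_append, hw'.1]
      simp
    · intro i hi
      rw [List.mem_append, List.mem_singleton] at hi
      rcases hi with hi | hi
      · exact hw'.2.1 i hi
      · rw [hi]
        exact hf1 w hw

end Pool.Agent.Collatz3.PF
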