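import Mathlib
import Pool.Agent.Collatz3.PFDefs
import Pool.Agent.Collatz3.GAll
import Pool.Agent.PF.Seg

set_option autoImplicit false

/-!
Chains of segments in the inverse 3x+1 tree: the number of words cut in given segments.
-/

namespace Pool.Agent.Collatz3.PF

open Real

/-- One segment. -/
theorem one_seg {ρ c : ℝ} (h0 : 0 < ρ) (h1 : ρ < 1) (hρ : ρ * log 3 < binEntropy ρ)
    (hc : 0 < c) {e η : ℝ} (he : 0 < e) (hη : 0 < η) :
    ∃ L₀ : ℝ, ∀ L : ℝ, L₀ ≤ L → ∃ n : ℕ, |(n : ℝ) - ρ * c * L| ≤ e * L ∧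
      ∀ a : ℤ, ¬ (3 : ℤ) ∣ a → ∃ P : Finset (List ℕ),
        exp (((binEntropy ρ - ρ * log 3) * c - η) * L) ≤ (P.card : ℝ) ∧
        ∀ w ∈ P, w.length = n ∧ (∀ i ∈ w, 1 ≤ i) ∧ |(w.sum : ℝ) - c * L| ≤ e * L ∧ Ok a w := by
  have hl2 : 0 < log 2 := log_pos (by norm_num)
  have hl2h : 1 / 2 < log 2 := by
    have := log_two_gt_d9
    linarith
  have hl21 : log 2 < 1 := by
    have := log_two_lt_d9
    linarith
  have H := growth_of_rho all_tilts h0 h1 hρ
  set g := binEntropy ρ / ρ - log 3 with hg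
  have hgpos : 0 < g := by
    rw [hg, sub_pos, lt_div_iff₀ h0, mul_comm]
    exact hρ
  have hρc : 0 < ρ * c := by positivity
  -- the slack
  obtain ⟨d, hd0, hdg, hde, hdη⟩ : ∃ d : ℝ, 0 < d ∧ d ≤ g ∧ d * (ρ * c) ≤ e / 4 ∧
      d * (ρ * c) ≤ η / 2 := by
    refine ⟨min g (min (e / 4) (η / 2) / (ρ * c)), ?_, min_le_left _ _, ?_, ?_⟩
    · positivity
    · have h := min_le_right g (min (e / 4) (η / 2) / (ρ * c))
      calc min g (min (e / 4) (η / 2) / (ρ * c)) * (ρ * c)
          ≤ min (e / 4) (η / 2) / (ρ * c) * (ρ * c) := mul_le_mul_of_nonneg_right h hρc.le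
        _ = min (e / 4) (η / 2) := div_mul_cancel₀ _ hρc.ne'
        _ ≤ e / 4 := min_le_left _ _
    · have h := min_le_right g (min (e / 4) (η / 2) / (ρ * c))
      calc min g (min (e / 4) (η / 2) / (ρ * c)) * (ρ * c)
          ≤ min (e / 4) (η / 2) / (ρ * c) * (ρ * c) := mul_le_mul_of_nonneg_right h hρc.le
        _ = min (e / 4) (η / 2) := div_mul_cancel₀ _ hρc.ne'
        _ ≤ η / 2 := min_le_right _ _
  obtain ⟨N₀, hN₀⟩ := seg H d hd0
  refine ⟨max (max ((N₀ + 1) / (ρ * c)) (1 / e)) (max ((20 + 2 * (log 2 / ρ)) / (e / 2))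
    (g / (η / 2))), ?_⟩
  intro L hL
  have hL1 : (N₀ + 1) / (ρ * c) ≤ L := (le_max_left _ _).trans ((le_max_left _ _).trans hL)
  have hL2 : 1 / e ≤ L := (le_max_right _ _).trans ((le_max_left _ _).trans hL)
  have hL3 : (20 + 2 * (log 2 / ρ)) / (e / 2) ≤ L :=
    (le_max_left _ _).trans ((le_max_right _ _).trans hL)
  have hL4 : g / (η / 2) ≤ L := (le_max_right _ _).trans ((le_max_right _ _).trans hL)
  rw [div_le_iff₀ (by positivity)] at hL1 hL2 hL3 hL4
  have hLpos : 0 < L := by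
    by_contra hcon
    push Not at hcon
    nlinarith
  have hX : (N₀ : ℝ) + 1 ≤ ρ * c * L := by linarith
  have hX0 : 0 ≤ ρ * c * L := by positivity
  have hfl := Nat.floor_le hX0
  have hfu := Nat.lt_floor_add_one (ρ * c * L)
  set m := ⌊ρ * c * L⌋₊ with hm
  have hNm : N₀ ≤ m := by
    have : (N₀ : ℝ) < m + 1 := by linarith
    have h2 : N₀ < m + 1 := by exact_mod_cast this
    omega
  refine ⟨m + 1, ?_, ?_⟩
  · rw [abs_le]
    push_cast
    constructor <;> linarith
  · intro a ha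
    obtain ⟨P, hP, hPw⟩ := hN₀ m hNm a ha
    refine ⟨P, ?_, ?_⟩
    · refine le_trans (exp_le_exp.2 ?_) hP
      have e1 : (binEntropy ρ - ρ * log 3) * c = g * (ρ * c) := by
        rw [hg]
        field_simp
      rw [e1]
      have h2 : (g - d) * (ρ * c * L - 1) ≤ (g - d) * m :=
        mul_le_mul_of_nonneg_left (by linarith) (by linarith)
      have h3 : d * (ρ * c) * L ≤ η / 2 * L := mul_le_mul_of_nonneg_right hdη hLpos.le
      nlinarith
    · intro w hw
      obtain ⟨w1, w2, w3, w4⟩ := hPw w hw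
      refine ⟨w1, w2, ?_, w4⟩
      have h5 := abs_le.1 w3
      have hm0 : (0 : ℝ) ≤ m := Nat.cast_nonneg m
      -- compare `(s + d) m` with `c L log 2`
      have h6 : log 2 / ρ * m ≤ c * L * log 2 := by
        calc log 2 / ρ * m ≤ log 2 / ρ * (ρ * c * L) := mul_le_mul_of_nonneg_left hfl (by positivity)
          _ = c * L * log 2 := by field_simp
      have h7 : c * L * log 2 - log 2 / ρ ≤ log 2 / ρ * m := by
        calc c * L * log 2 - log 2 / ρ = log 2 / ρ * (ρ * c * L - 1) := by field_simp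
          _ ≤ log 2 / ρ * m := mul_le_mul_of_nonneg_left (by linarith) (by positivity)
      have h8 : d * m ≤ e / 4 * L := by
        calc d * m ≤ d * (ρ * c * L) := mul_le_mul_of_nonneg_left hfl hd0.le
          _ = d * (ρ * c) * L := by ring
          _ ≤ e / 4 * L := mul_le_mul_of_nonneg_right hde hLpos.le
      have h9 : 0 ≤ d * m := by positivity
      have h10 : 0 < log 2 / ρ := by positivity
      have h11 : |((w.sum : ℝ) - c * L) * log 2| ≤ e * L * (1 / 2) := by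
        rw [abs_le]
        constructor <;> nlinarith [h5.1, h5.2]
      rw [abs_mul, abs_of_pos hl2] at h11
      have h12 : |(w.sum : ℝ) - c * L| * (1 / 2) ≤ |(w.sum : ℝ) - c * L| * log 2 :=
        mul_le_mul_of_nonneg_left hl2h.le (abs_nonneg _)
      linarith

theorem chain_aux {e : ℝ} (he : 0 < e) : ∀ (l : List (ℝ × ℝ)), Adm l → ∀ η : ℝ, 0 < η →
    ∃ L₀ : ℝ, ∀ L : ℝ, L₀ ≤ L → ∃ n : ℕ, ∀ a : ℤ, ¬ (3 : ℤ) ∣ a →
      ∃ P : Finset (List ℕ), exp ((gain l - η) * L) ≤ (P.card : ℝ) ∧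
        ∀ w ∈ P, w.length = n ∧ Cut L e l a w ∧ Ok a w := by
  classical
  intro l
  induction l with
  | nil =>
    intro _ η hη
    refine ⟨0, fun L hL => ⟨0, fun a ha => ⟨{[]}, ?_, ?_⟩⟩⟩
    · simp only [gain, List.map_nil, List.sum_nil, Finset.card_singleton, Nat.cast_one]
      rw [exp_le_one_iff]
      nlinarith
    · intro w hw
      rw [Finset.mem_singleton] at hw
      subst hw
      exact ⟨rfl, rfl, a, rfl, ha⟩
  | cons q l ih =>
    intro hA η hη
    obtain ⟨a1, a2, a3, a4⟩ := hA q List.mem_cons_self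
    obtain ⟨L₁, h₁⟩ := one_seg a1 a2 a3 a4 he (half_pos hη)
    obtain ⟨L₂, h₂⟩ := ih (fun q' hq' => hA q' (List.mem_cons_of_mem _ hq')) (η / 2) (half_pos hη)
    refine ⟨max L₁ L₂, fun L hL => ?_⟩
    obtain ⟨n₁, hn₁, hP₁⟩ := h₁ L ((le_max_left _ _).trans hL)
    obtain ⟨n₂, hP₂⟩ := h₂ L ((le_max_right _ _).trans hL)
    refine ⟨n₁ + n₂, fun a ha => ?_⟩
    obtain ⟨P, hP, hPw⟩ := hP₁ a ha
    have hend : ∀ u : List ℕ, ∃ b : ℤ, ¬ (3 : ℤ) ∣ b ∧ (u ∈ P → Up a u b) := by
      intro u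
      by_cases hu : u ∈ P
      · obtain ⟨b, hb, hb3⟩ := (hPw u hu).2.2.2
        exact ⟨b, hb3, fun _ => hb⟩
      · exact ⟨1, by norm_num, fun h => absurd h hu⟩
    choose f hf3 hfU using hend
    choose Q hQ hQw using fun u => hP₂ (f u) (hf3 u)
    refine ⟨P.biUnion fun u => (Q u).image fun v => u ++ v, ?_, ?_⟩
    · rw [Finset.card_biUnion]
      · have h1 : ∀ u ∈ P, ((Q u).image fun v => u ++ v).card = (Q u).card := by
          intro u _
          exact Finset.card_image_of_injective _ (List.append_right_injective u)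
        rw [Finset.sum_congr rfl h1]
        have e1 : (gain (q :: l) - η) * L = ((binEntropy q.1 - q.1 * log 3) * q.2 - η / 2) * L +
            (gain l - η / 2) * L := by
          simp only [gain, List.map_cons, List.sum_cons]
          ring
        rw [e1, exp_add]
        push_cast
        calc exp (((binEntropy q.1 - q.1 * log 3) * q.2 - η / 2) * L) * exp ((gain l - η / 2) * L)
            ≤ (P.card : ℝ) * exp ((gain l - η / 2) * L) :=
              mul_le_mul_of_nonneg_right hP (exp_pos _).le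
          _ = ∑ _u ∈ P, exp ((gain l - η / 2) * L) := by rw [Finset.sum_const, nsmul_eq_mul]
          _ ≤ ∑ u ∈ P, ((Q u).card : ℝ) := Finset.sum_le_sum fun u _ => hQ u
      · intro u hu u' hu' hne
        change Disjoint _ _
        rw [Finset.disjoint_left]
        intro w hw hw'
        rw [Finset.mem_image] at hw hw'
        obtain ⟨v, _, rfl⟩ := hw
        obtain ⟨v', _, hv'⟩ := hw'
        have h1 : u'.length = u.length := by
          rw [(hPw u' hu').1, (hPw u hu).1]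
        exact hne (List.append_inj_left hv' h1).symm
    · intro w hw
      rw [Finset.mem_biUnion] at hw
      obtain ⟨u, hu, hw⟩ := hw
      rw [Finset.mem_image] at hw
      obtain ⟨v, hv, rfl⟩ := hw
      obtain ⟨hv1, hv2, b, hb, hb3⟩ := hQw u v hv
      obtain ⟨hu1, hu2, hu3, hu4⟩ := hPw u hu
      refine ⟨by rw [List.length_append, hu1, hv1], ?_, b, Up.append_iff.2 ⟨f u, hfU u hu, hb⟩, hb3⟩
      refine ⟨u, v, f u, rfl, hu2, ?_, hu3, hfU u hu, hf3 u, hv2⟩
      rw [hu1]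
      exact hn₁

/-- The number of words cut in given segments. -/
theorem chain (l : List (ℝ × ℝ)) (hl : Adm l) (e : ℝ) (he : 0 < e) :
    ∃ L₀ : ℝ, ∀ L : ℝ, L₀ ≤ L → ∀ a : ℤ, ¬ (3 : ℤ) ∣ a →
      ∃ (n : ℕ) (P : Finset (List ℕ)), exp ((gain l - e) * L) ≤ (P.card : ℝ) ∧
        ∀ w ∈ P, w.length = n ∧ Cut L e l a w := by
  obtain ⟨L₀, h⟩ := chain_aux he l hl e he
  refine ⟨L₀, fun L hL a ha => ?_⟩
  obtain ⟨n, hn⟩ := h L hL
  obtain ⟨P, hP, hPw⟩ := hn a ha
  exact ⟨n, P, hP, fun w hw => ⟨(hPw w hw).1, (hPw w hw).2.1⟩⟩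

end Pool.Agent.Collatz3.PF
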