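import Mathlib
import Pool.Agent.Collatz3.PFDefs

set_option autoImplicit false

/-!
Cutting the segments of a profile into small ones.
-/

namespace Pool.Agent.Collatz3.PF

open Real Filter

theorem min_split {τ c m : ℝ} (hc : 0 ≤ c) (hm : 0 ≤ m) :
    min (max τ 0) c + min (max (τ - c) 0) m = min (max τ 0) (c + m) := by
  rcases le_total τ 0 with h | h
  · rw [max_eq_right h, max_eq_right (by linarith), min_eq_left hc, min_eq_left hm,
      min_eq_left (by linarith)]
    ring
  · rw [max_eq_left h]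
    rcases le_total τ c with h1 | h1
    · rw [min_eq_left h1, max_eq_right (by linarith), min_eq_left hm, min_eq_left (by linarith)]
      ring
    · rw [min_eq_right h1, max_eq_left (by linarith)]
      rcases le_total (τ - c) m with h2 | h2
      · rw [min_eq_left h2, min_eq_left (by linarith)]
        ring
      · rw [min_eq_right h2, min_eq_right (by linarith)]

theorem rise_replicate (ρ c : ℝ) (hc : 0 ≤ c) (l : List (ℝ × ℝ)) (N : ℕ) : ∀ τ : ℝ,
    rise (List.replicate N (ρ, c) ++ l) τ =
      (log 2 - ρ * log 3) * min (max τ 0) (N * c) + rise l (τ - N * c) := by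
  induction N with
  | zero =>
    intro τ
    simp
  | succ N ih =>
    intro τ
    rw [List.replicate_succ, List.cons_append]
    show (log 2 - ρ * log 3) * min (max τ 0) c + rise (List.replicate N (ρ, c) ++ l) (τ - c) = _
    rw [ih (τ - c)]
    have h1 := min_split (τ := τ) hc (show 0 ≤ (N : ℝ) * c by positivity)
    have e1 : ((N + 1 : ℕ) : ℝ) * c = c + N * c := by push_cast; ring
    rw [e1, ← h1, show τ - (c + N * c) = τ - c - N * c by ring]
    ring

theorem sum_replicate (f : ℝ → ℝ) (ρ c : ℝ) (l : List (ℝ × ℝ)) (N : ℕ) :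
    ((List.replicate N (ρ, c) ++ l).map fun q => f q.1 * q.2).sum =
      f ρ * (N * c) + (l.map fun q => f q.1 * q.2).sum := by
  rw [List.map_append, List.sum_append, List.map_replicate, List.sum_replicate, nsmul_eq_mul]
  ring

/-- The general form of `refine_list`: all sums `sum f(ρ) c` are kept. -/
theorem refine_list' (l : List (ℝ × ℝ)) (hl : Adm l) {δ : ℝ} (hδ : 0 < δ) :
    ∃ l' : List (ℝ × ℝ), Adm l' ∧ (∀ q ∈ l', q.2 ≤ δ) ∧
      (∀ f : ℝ → ℝ, (l'.map fun q => f q.1 * q.2).sum = (l.map fun q => f q.1 * q.2).sum) ∧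
      ∀ τ, rise l' τ = rise l τ := by
  induction l with
  | nil => exact ⟨[], hl, by simp, fun f => rfl, fun τ => rfl⟩
  | cons q l ih =>
    obtain ⟨l', h1, h2, h3, h4⟩ := ih fun p hp => hl p (List.mem_cons_of_mem _ hp)
    obtain ⟨q1, q2, q3, q4⟩ := hl q List.mem_cons_self
    obtain ⟨N, hN⟩ := exists_nat_gt (q.2 / δ)
    have hN0 : (0 : ℝ) < N := lt_trans (div_pos q4 hδ) hN
    have hc : q.2 / N ≤ δ := by
      rw [div_le_iff₀ hN0]
      rw [div_lt_iff₀ hδ] at hN
      linarith
    have hmul : (N : ℝ) * (q.2 / N) = q.2 := by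
      field_simp
    refine ⟨List.replicate N (q.1, q.2 / N) ++ l', ?_, ?_, ?_, ?_⟩
    · intro p hp
      rcases List.mem_append.1 hp with hp | hp
      · rw [List.eq_of_mem_replicate hp]
        exact ⟨q1, q2, q3, div_pos q4 hN0⟩
      · exact h1 p hp
    · intro p hp
      rcases List.mem_append.1 hp with hp | hp
      · rw [List.eq_of_mem_replicate hp]
        exact hc
      · exact h2 p hp
    · intro f
      rw [sum_replicate, hmul, h3 f, List.map_cons, List.sum_cons]
    · intro τ
      rw [rise_replicate q.1 (q.2 / N) (div_nonneg q4.le hN0.le) l' N τ, hmul, h4]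
      rfl

/-- [PFFin, part 1] small segments -/
theorem refine_list (l : List (ℝ × ℝ)) (hl : Adm l) {δ : ℝ} (hδ : 0 < δ) :
    ∃ l' : List (ℝ × ℝ), Adm l' ∧ (∀ q ∈ l', q.2 ≤ δ) ∧ gain l' = gain l ∧
      (l'.map Prod.snd).sum = (l.map Prod.snd).sum ∧ ∀ τ, rise l' τ = rise l τ := by
  obtain ⟨l', h1, h2, h3, h4⟩ := refine_list' l hl hδ
  refine ⟨l', h1, h2, h3 fun ρ => binEntropy ρ - ρ * log 3, ?_, h4⟩
  have := h3 fun _ => 1
  simpa using this

end Pool.Agent.Collatz3.PF
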